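import Pool.Agent.W297.LP.Stm

/-!
LP-ENT: entropy of the clique counts of the parts
-/

set_option autoImplicit false

open Finset

namespace Pool.Agent.W672.LP

open Pool.Agent.W297.LP

section count

variable {V : Type} [Fintype V] {W : V → V → ℝ}

open Classical in
/-- functions with two prescribed values -/
theorem fib2 (D : Finset V) (k : ℕ) (a b : Fin k) (hab : a ≠ b) (p q : V) :
    ((Fintype.piFinset (fun _ : Fin k => D)).filter (fun x => x a = p ∧ x b = q)).card ≤
      D.card ^ (k - 2) := by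
  have h1 : ((Fintype.piFinset (fun _ : Fin k => D)).filter
      (fun x => x a = p ∧ x b = q)).card ≤
      (Fintype.piFinset (fun _ : {c : Fin k // c ≠ a ∧ c ≠ b} => D)).card := by
    apply Finset.card_le_card_of_injOn (fun f x => f x.1)
    · intro f hf
      have hf' := Fintype.mem_piFinset.1 (mem_filter.1 (Finset.mem_coe.1 hf)).1
      exact Finset.mem_coe.2 (Fintype.mem_piFinset.2 fun x => hf' x.1)
    · intro f hf g hg hfg
      have hf' := (mem_filter.1 (Finset.mem_coe.1 hf)).2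
      have hg' := (mem_filter.1 (Finset.mem_coe.1 hg)).2
      funext x
      by_cases hx : x = a
      · rw [hx, hf'.1, hg'.1]
      · by_cases hx' : x = b
        · rw [hx', hf'.2, hg'.2]
        · exact congrFun hfg ⟨x, hx, hx'⟩
  refine h1.trans (le_of_eq ?_)
  rw [Fintype.card_piFinset, prod_const, Finset.card_univ]
  congr 1
  rw [Fintype.card_subtype]
  have h2 : (univ : Finset (Fin k)).filter (fun c => c ≠ a ∧ c ≠ b) =
      ((univ : Finset (Fin k)).erase a).erase b := by
    ext c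
    simp only [mem_filter, mem_univ, true_and, mem_erase, and_true]
    tauto
  rw [h2, card_erase_of_mem (mem_erase.2 ⟨hab.symm, mem_univ _⟩), card_erase_of_mem (mem_univ _),
    Finset.card_univ, Fintype.card_fin]
  omega

open Classical in
theorem co_sum (hW : Ker W) (D : Finset V) : ∑ x ∈ D, ∑ y ∈ D, co W x y =
    (((D ×ˢ D).filter (fun p => co W p.1 p.2 = 1)).card : ℝ) := by
  rw [← sum_product', card_filter]
  push_cast
  refine sum_congr rfl fun p _ => ?_
  unfold co
  rcases hW.zo p.1 p.2 with h | h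
  · rw [h]; norm_num
  · rw [h]; norm_num

/-- the union bound -/
theorem clb (hW : Ker W) (D : Finset V) (k : ℕ) :
    (D.card : ℝ) ^ k - (k : ℝ) ^ 2 * (∑ x ∈ D, ∑ y ∈ D, co W x y) * (D.card : ℝ) ^ (k - 2) ≤
      ((cl W D k).card : ℝ) := by
  classical
  rw [co_sum hW]
  set Bp := (D ×ˢ D).filter (fun p => co W p.1 p.2 = 1) with hBp
  set F := Fintype.piFinset (fun _ : Fin k => D) with hF
  have h1 : F ⊆ cl W D k ∪ ((univ : Finset (Fin k × Fin k)).filter (fun p => p.1 ≠ p.2)).biUnion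
      (fun p => F.filter (fun x => (x p.1, x p.2) ∈ Bp)) := by
    intro x hx
    have hx' := Fintype.mem_piFinset.1 hx
    by_cases h : ∀ i j, i ≠ j → W (x i) (x j) = 1
    · refine mem_union_left _ ?_
      unfold cl
      exact mem_filter.2 ⟨mem_univ _, hx', h⟩
    · refine mem_union_right _ ?_
      push Not at h
      obtain ⟨i, j, hij, hw⟩ := h
      rw [mem_biUnion]
      refine ⟨(i, j), mem_filter.2 ⟨mem_univ _, hij⟩, mem_filter.2 ⟨hx, ?_⟩⟩
      rw [hBp, mem_filter, mem_product]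
      refine ⟨⟨hx' i, hx' j⟩, ?_⟩
      unfold co
      rcases hW.zo (x i) (x j) with h | h
      · simp only [h]; norm_num
      · exact absurd h hw
  have h2 : F.card ≤ (cl W D k).card + k ^ 2 * (Bp.card * D.card ^ (k - 2)) := by
    refine (card_le_card h1).trans ((card_union_le _ _).trans (Nat.add_le_add_left ?_ _))
    refine (card_biUnion_le_card_mul _ _ (Bp.card * D.card ^ (k - 2)) ?_).trans ?_
    · intro p hp
      have hp' := (mem_filter.1 hp).2
      rw [mul_comm]
      refine card_le_mul_card_image_of_maps_to (f := fun x => (x p.1, x p.2)) (t := Bp) ?_ _ ?_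
      · intro x hx
        exact (mem_filter.1 hx).2
      · intro y _
        refine le_trans (card_le_card ?_) (fib2 D k p.1 p.2 hp' y.1 y.2)
        intro x hx
        rw [mem_filter, mem_filter] at hx
        rw [mem_filter]
        exact ⟨hx.1.1, congrArg Prod.fst hx.2, congrArg Prod.snd hx.2⟩
    · apply Nat.mul_le_mul_right
      refine (card_filter_le _ _).trans ?_
      rw [Finset.card_univ, Fintype.card_prod, Fintype.card_fin, pow_two]
  have h3 : F.card = D.card ^ k := by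
    rw [hF, Fintype.card_piFinset, prod_const, Finset.card_univ, Fintype.card_fin]
  rw [h3] at h2
  have h4 : (D.card : ℝ) ^ k ≤ (cl W D k).card +
      (k : ℝ) ^ 2 * ((Bp.card : ℝ) * (D.card : ℝ) ^ (k - 2)) := by exact_mod_cast h2
  linarith

/-- the normalised form -/
theorem clb' (hW : Ker W) (hV : 0 < Fintype.card V) (D : Finset V) (k : ℕ) (hk : 2 ≤ k) :
    (ms D) ^ k - (k : ℝ) ^ 2 * ee (co W) D D * (ms D) ^ (k - 2) ≤
      ((cl W D k).card : ℝ) / (Fintype.card V : ℝ) ^ k := by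
  have hn : (0 : ℝ) < (Fintype.card V : ℝ) := by exact_mod_cast hV
  have h := clb hW D k
  have hk' : (Fintype.card V : ℝ) ^ k = (Fintype.card V : ℝ) ^ 2 * (Fintype.card V : ℝ) ^ (k - 2) := by
    rw [← pow_add]; congr 1; omega
  have h1 : (ms D) ^ k - (k : ℝ) ^ 2 * ee (co W) D D * (ms D) ^ (k - 2) =
      ((D.card : ℝ) ^ k - (k : ℝ) ^ 2 * (∑ x ∈ D, ∑ y ∈ D, co W x y) * (D.card : ℝ) ^ (k - 2)) /
        (Fintype.card V : ℝ) ^ k := by
    unfold ms ee
    rw [div_pow, div_pow, sub_div]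
    congr 1
    rw [hk']
    field_simp
  rw [h1]
  gcongr

end count

theorem log_one_sub_ge {u : ℝ} (h0 : 0 ≤ u) (h1 : u ≤ 1 / 2) : -(2 * u) ≤ Real.log (1 - u) := by
  have h2 : 0 < 1 - u := by linarith
  have h3 := Real.one_sub_inv_le_log_of_pos h2
  refine le_trans ?_ h3
  have h4 : (1 - u)⁻¹ ≤ 1 + 2 * u := by
    rw [inv_le_iff_one_le_mul₀ h2]
    nlinarith
  linarith

theorem ent : SEnt := by
  classical
  intro k hk
  have hkr : (4 : ℝ) ≤ k := by exact_mod_cast hk
  have hm : 0 < mu k := by unfold mu; apply div_pos one_pos; linarith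
  have hm1 : mu k ≤ 1 / 3 := by
    unfold mu
    rw [div_le_div_iff₀ (by linarith) (by norm_num)]
    linarith
  set m := mu k with hmdef
  refine ⟨8 * (k : ℝ) ^ 2 / m ^ 2 + 4 * k, m ^ 2 / (8 * (k : ℝ) ^ 2), by positivity,
    by positivity, ?_⟩
  intro V _ _ W Vi A1 A2 e d hW hV hd hT hbl
  have hn : (0 : ℝ) < (Fintype.card V : ℝ) := by exact_mod_cast hV
  have hv : ∀ i, m / 2 ≤ ms (Vi i) := by
    intro i
    have h1 := abs_le.1 (hT.size i)
    have h2 : m ^ 2 / 16 ≤ m / 2 := by nlinarith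
    linarith [h1.1]
  have hv0 : ∀ i, 0 < ms (Vi i) := fun i => by linarith [hv i]
  have hnek : Nonempty (Fin (k - 1)) := ⟨⟨0, by omega⟩⟩
  set S2 := ∑ j, (ms (Vi j)) ^ 2 with hS2
  have hS2pos : 0 < S2 := by
    apply sum_pos
    · intro i _; exact pow_pos (hv0 i) 2
    · exact univ_nonempty
  set v := ∑ j, ms (Vi j) with hvdef
  have hvpos : 0 < v := sum_pos (fun i _ => hv0 i) univ_nonempty
  have hww : ∀ i, 0 < ww Vi i := fun i => div_pos (pow_pos (hv0 i) 2) hS2pos
  have hwws : ∑ i, ww Vi i = 1 := by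
    unfold ww
    rw [← sum_div, div_self hS2pos.ne']
  -- `v ≤ 1`
  have hv1 : v ≤ 1 := by
    have h1 : ∑ i, (Vi i).card ≤ Fintype.card V := by
      rw [← card_biUnion (fun i _ j _ hij => hT.disj i j hij), ← Finset.card_univ]
      exact card_le_card (subset_univ _)
    have h2 : v = ((∑ i, (Vi i).card : ℕ) : ℝ) / (Fintype.card V : ℝ) := by
      rw [hvdef]
      unfold ms
      rw [← sum_div]
      push_cast
      rfl
    rw [h2, div_le_one hn]
    exact_mod_cast h1
  -- `1 ≤ ms A1 + ms A2 + v`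
  have hv2 : 1 ≤ ms A1 + ms A2 + v := by
    have h1 : (univ : Finset V) ⊆ A1 ∪ (A2 ∪ univ.biUnion Vi) := by
      intro x _
      rcases hT.cov x with h | h | ⟨i, h⟩
      · exact mem_union_left _ h
      · exact mem_union_right _ (mem_union_left _ h)
      · exact mem_union_right _ (mem_union_right _ (mem_biUnion.2 ⟨i, mem_univ _, h⟩))
    have h2 : Fintype.card V ≤ A1.card + (A2.card + ∑ i, (Vi i).card) := by
      rw [← Finset.card_univ]
      refine (card_le_card h1).trans ((card_union_le _ _).trans (Nat.add_le_add_left ?_ _))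
      refine (card_union_le _ _).trans (Nat.add_le_add_left ?_ _)
      exact card_biUnion_le
    have h3 : (Fintype.card V : ℝ) ≤ A1.card + (A2.card + ∑ i, ((Vi i).card : ℝ)) := by
      exact_mod_cast h2
    have h4 : ms A1 + ms A2 + v =
        (A1.card + (A2.card + ∑ i, ((Vi i).card : ℝ))) / (Fintype.card V : ℝ) := by
      rw [hvdef]
      unfold ms
      rw [← sum_div]
      field_simp
      ring
    rw [h4, le_div_iff₀ hn, one_mul]
    exact h3
  have hA1 : 0 ≤ ms A1 := by unfold ms; positivity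
  have hA2 : 0 ≤ ms A2 := by unfold ms; positivity
  have hb : ∀ i, 0 ≤ ee (co W) (Vi i) (Vi i) := by
    intro i
    unfold ee
    apply div_nonneg _ (by positivity)
    refine sum_nonneg fun x _ => sum_nonneg fun y _ => ?_
    unfold co
    rcases hW.zo x y with h | h <;> rw [h] <;> norm_num
  have hbi : ∀ i, ee (co W) (Vi i) (Vi i) ≤ bl W Vi := by
    intro i
    unfold bl
    exact single_le_sum (f := fun i => ee (co W) (Vi i) (Vi i)) (fun j _ => hb j) (mem_univ i)
  have hbl0 : 0 ≤ bl W Vi := by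
    unfold bl
    exact sum_nonneg fun i _ => hb i
  -- the bound of one term
  have hterm : ∀ i, ((k : ℝ) - 2) * Real.log (ms (Vi i)) + Real.log S2 -
      8 * (k : ℝ) ^ 2 / m ^ 2 * bl W Vi ≤
      Real.log (((cl W (Vi i) k).card : ℝ) / ((Fintype.card V : ℝ) ^ k * ww Vi i)) := by
    intro i
    have hvi := hv0 i
    have h1 := clb' hW hV (Vi i) k (by omega)
    set u := (k : ℝ) ^ 2 * ee (co W) (Vi i) (Vi i) / (ms (Vi i)) ^ 2 with hu
    have hu0 : 0 ≤ u := div_nonneg (mul_nonneg (by positivity) (hb i)) (by positivity)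
    have hu1 : u ≤ 4 * (k : ℝ) ^ 2 / m ^ 2 * bl W Vi := by
      rw [hu, div_le_iff₀ (by positivity)]
      have h3 : (m / 2) ^ 2 ≤ (ms (Vi i)) ^ 2 := pow_le_pow_left₀ (by positivity) (hv i) 2
      have h4 : (k : ℝ) ^ 2 * ee (co W) (Vi i) (Vi i) ≤ (k : ℝ) ^ 2 * bl W Vi :=
        mul_le_mul_of_nonneg_left (hbi i) (by positivity)
      have h5 : (k : ℝ) ^ 2 * bl W Vi = 4 * (k : ℝ) ^ 2 / m ^ 2 * bl W Vi * (m / 2) ^ 2 := by
        field_simp
        ring
      rw [h5] at h4
      refine h4.trans (mul_le_mul_of_nonneg_left h3 (by positivity))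
    have hu2 : u ≤ 1 / 2 := by
      refine hu1.trans ?_
      calc 4 * (k : ℝ) ^ 2 / m ^ 2 * bl W Vi
          ≤ 4 * (k : ℝ) ^ 2 / m ^ 2 * (m ^ 2 / (8 * (k : ℝ) ^ 2)) :=
            mul_le_mul_of_nonneg_left hbl (by positivity)
        _ = 1 / 2 := by
            field_simp
            norm_num
    have h2 : (ms (Vi i)) ^ k - (k : ℝ) ^ 2 * ee (co W) (Vi i) (Vi i) * (ms (Vi i)) ^ (k - 2) =
        (ms (Vi i)) ^ k * (1 - u) := by
      have hk' : (ms (Vi i)) ^ k = (ms (Vi i)) ^ 2 * (ms (Vi i)) ^ (k - 2) := by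
        rw [← pow_add]; congr 1; omega
      rw [hk', hu]
      field_simp
    rw [h2] at h1
    have h1u : 0 < 1 - u := by linarith
    have h3 : (ms (Vi i)) ^ k * (1 - u) / ww Vi i ≤
        ((cl W (Vi i) k).card : ℝ) / ((Fintype.card V : ℝ) ^ k * ww Vi i) := by
      rw [← div_div]
      exact div_le_div_of_nonneg_right h1 (hww i).le
    have h4 : 0 < (ms (Vi i)) ^ k * (1 - u) / ww Vi i :=
      div_pos (mul_pos (pow_pos hvi k) h1u) (hww i)
    refine le_trans ?_ (Real.log_le_log h4 h3)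
    rw [Real.log_div (mul_pos (pow_pos hvi k) h1u).ne' (hww i).ne',
      Real.log_mul (pow_pos hvi k).ne' h1u.ne', Real.log_pow]
    have h5 : Real.log (ww Vi i) = 2 * Real.log (ms (Vi i)) - Real.log S2 := by
      unfold ww
      rw [Real.log_div (pow_pos hvi 2).ne' hS2pos.ne', Real.log_pow]
      push_cast
      ring
    rw [h5]
    have h6 := log_one_sub_ge hu0 hu2
    have h7 : 8 * (k : ℝ) ^ 2 / m ^ 2 * bl W Vi = 2 * (4 * (k : ℝ) ^ 2 / m ^ 2 * bl W Vi) := by
      ring
    rw [h7]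
    linarith
  -- sum
  have hsum : ∑ i, ww Vi i * (((k : ℝ) - 2) * Real.log (ms (Vi i)) + Real.log S2 -
      8 * (k : ℝ) ^ 2 / m ^ 2 * bl W Vi) ≤ ∑ i, ww Vi i *
          Real.log (((cl W (Vi i) k).card : ℝ) / ((Fintype.card V : ℝ) ^ k * ww Vi i)) :=
    sum_le_sum fun i _ => mul_le_mul_of_nonneg_left (hterm i) (hww i).le
  refine le_trans ?_ hsum
  have hexp : ∑ i, ww Vi i * (((k : ℝ) - 2) * Real.log (ms (Vi i)) + Real.log S2 -
      8 * (k : ℝ) ^ 2 / m ^ 2 * bl W Vi) =
      ((k : ℝ) - 2) * ∑ i, ww Vi i * Real.log (ms (Vi i)) + Real.log S2 -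
      8 * (k : ℝ) ^ 2 / m ^ 2 * bl W Vi := by
    have : ∀ i, ww Vi i * (((k : ℝ) - 2) * Real.log (ms (Vi i)) + Real.log S2 -
      8 * (k : ℝ) ^ 2 / m ^ 2 * bl W Vi) = ((k : ℝ) - 2) * (ww Vi i * Real.log (ms (Vi i))) +
        ww Vi i * (Real.log S2 - 8 * (k : ℝ) ^ 2 / m ^ 2 * bl W Vi) := fun i => by ring
    rw [sum_congr rfl fun i _ => this i, sum_add_distrib, ← mul_sum, ← sum_mul, hwws]
    ring
  rw [hexp]
  -- Jensen
  have hjen : Real.log (S2 / v) ≤ ∑ i, ww Vi i * Real.log (ms (Vi i)) := by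
    have hc : 0 < S2 / v := div_pos hS2pos hvpos
    have h1 : ∀ i, ww Vi i * (Real.log (S2 / v) + 1) - 1 / v * ms (Vi i) ≤
        ww Vi i * Real.log (ms (Vi i)) := by
      intro i
      have hvi := hv0 i
      have h2 := Real.one_sub_inv_le_log_of_pos (div_pos hvi hc)
      rw [Real.log_div hvi.ne' hc.ne'] at h2
      have h3 := mul_le_mul_of_nonneg_left h2 (hww i).le
      have h4 : ww Vi i * (ms (Vi i) / (S2 / v))⁻¹ = 1 / v * ms (Vi i) := by
        unfold ww
        rw [← hS2]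
        field_simp
      have h5 : ww Vi i * (1 - (ms (Vi i) / (S2 / v))⁻¹) = ww Vi i - 1 / v * ms (Vi i) := by
        rw [mul_sub, h4, mul_one]
      rw [h5] at h3
      linarith
    have h2 := sum_le_sum fun i (_ : i ∈ (univ : Finset (Fin (k - 1)))) => h1 i
    rw [sum_sub_distrib, ← sum_mul, ← mul_sum, hwws, ← hvdef] at h2
    have h3 : 1 / v * v = 1 := by field_simp
    rw [h3] at h2
    linarith
  have hlogv : Real.log (S2 / v) = Real.log S2 - Real.log v :=
    Real.log_div hS2pos.ne' hvpos.ne'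
  have hlv : Real.log v ≤ 0 := Real.log_nonpos hvpos.le hv1
  have hcs : m * v ^ 2 ≤ S2 := by
    have h1 := sq_sum_le_card_mul_sum_sq (s := (univ : Finset (Fin (k - 1))))
      (f := fun j => ms (Vi j))
    rw [Finset.card_univ, Fintype.card_fin, ← hvdef, ← hS2] at h1
    have h2 : ((k - 1 : ℕ) : ℝ) = (k : ℝ) - 1 := by
      rw [Nat.cast_sub (by omega)]; norm_num
    rw [h2] at h1
    have h3 : m * ((k : ℝ) - 1) = 1 := by
      rw [hmdef]; unfold mu
      have : (k : ℝ) - 1 ≠ 0 := by linarith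
      field_simp
    calc m * v ^ 2 ≤ m * (((k : ℝ) - 1) * S2) := mul_le_mul_of_nonneg_left h1 hm.le
      _ = (m * ((k : ℝ) - 1)) * S2 := by ring
      _ = S2 := by rw [h3, one_mul]
  have ha : ms A1 + ms A2 ≤ 1 / 2 := by
    have := hT.small
    nlinarith
  have hlogv2 : -(2 * (ms A1 + ms A2)) ≤ Real.log v := by
    have h1 := log_one_sub_ge (add_nonneg hA1 hA2) ha
    refine h1.trans (Real.log_le_log (by linarith) (by linarith))
  have hlogS : Real.log m - 4 * (ms A1 + ms A2) ≤ Real.log S2 := by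
    have h1 := Real.log_le_log (by positivity) hcs
    rw [Real.log_mul hm.ne' (by positivity), Real.log_pow] at h1
    push_cast at h1
    linarith
  have hk2 : (0 : ℝ) ≤ (k : ℝ) - 2 := by linarith
  have h1 : ((k : ℝ) - 2) * Real.log S2 ≤
      ((k : ℝ) - 2) * ∑ i, ww Vi i * Real.log (ms (Vi i)) := by
    apply mul_le_mul_of_nonneg_left _ hk2
    linarith
  have h2 : ((k : ℝ) - 1) * (Real.log m - 4 * (ms A1 + ms A2)) ≤ ((k : ℝ) - 1) * Real.log S2 :=
    mul_le_mul_of_nonneg_left hlogS (by linarith)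
  have h3 : 0 ≤ 8 * (k : ℝ) ^ 2 / m ^ 2 * (ms A1 + ms A2) := by positivity
  have h4 : 0 ≤ 4 * (k : ℝ) * bl W Vi := by positivity
  nlinarith

end Pool.Agent.W672.LP
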