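import Pool.Agent.W297.LP.Stm

/-!
LP-LOW: from homomorphism densities to the count of embeddings
-/

set_option autoImplicit false

open Finset

namespace Pool.Agent.W672.LP

open Pool.Agent.W297.LP

open Classical in
/-- the number of functions with a prescribed coincidence -/
theorem card_eq_le (t n : ℕ) (i j : Fin t) (hij : i ≠ j) :
    ((univ : Finset (Fin t → Fin n)).filter (fun f => f i = f j)).card ≤ n ^ (t - 1) := by
  have h1 : ((univ : Finset (Fin t → Fin n)).filter (fun f => f i = f j)).card ≤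
      (univ : Finset ({x : Fin t // x ≠ i} → Fin n)).card := by
    apply Finset.card_le_card_of_injOn (fun f x => f x.1)
    · intro f _
      exact Finset.mem_coe.2 (mem_univ _)
    · intro f hf g hg hfg
      have hf' := (mem_filter.1 (Finset.mem_coe.1 hf)).2
      have hg' := (mem_filter.1 (Finset.mem_coe.1 hg)).2
      funext x
      by_cases hx : x = i
      · rw [hx, hf', hg']
        exact congrFun hfg ⟨j, hij.symm⟩
      · exact congrFun hfg ⟨x, hx⟩
  refine h1.trans (le_of_eq ?_)
  rw [Finset.card_univ, Fintype.card_fun]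
  congr 1
  · simp
  · simp

open Classical in
/-- the number of functions which are not injective -/
theorem card_noninj (t n : ℕ) :
    ((univ : Finset (Fin t → Fin n)).filter (fun f => ¬ Function.Injective f)).card ≤
      t ^ 2 * n ^ (t - 1) := by
  have h1 : ((univ : Finset (Fin t → Fin n)).filter (fun f => ¬ Function.Injective f)) ⊆
      ((univ : Finset (Fin t × Fin t)).filter (fun p => p.1 ≠ p.2)).biUnion
        (fun p => (univ : Finset (Fin t → Fin n)).filter (fun f => f p.1 = f p.2)) := by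
    intro f hf
    have hf' := (mem_filter.1 hf).2
    unfold Function.Injective at hf'
    push Not at hf'
    obtain ⟨a, b, hab, hne⟩ := hf'
    rw [mem_biUnion]
    exact ⟨(a, b), mem_filter.2 ⟨mem_univ _, hne⟩, mem_filter.2 ⟨mem_univ _, hab⟩⟩
  refine (card_le_card h1).trans ((card_biUnion_le_card_mul _ _ (n ^ (t - 1)) ?_).trans ?_)
  · intro p hp
    exact card_eq_le t n p.1 p.2 (mem_filter.1 hp).2
  · apply Nat.mul_le_mul_right
    refine (card_filter_le _ _).trans ?_
    rw [Finset.card_univ, Fintype.card_prod, Fintype.card_fin, pow_two]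

theorem low : SMain → SHom → SLow := by
  classical
  intro hmain hhom k hk
  obtain ⟨N0, n0, hM⟩ := hmain k hk
  refine ⟨N0 + k, fun t ht H hH ε hε => ?_⟩
  obtain ⟨T, hT, hcount⟩ := hhom k hk t H hH
  obtain ⟨hconn, S, hSk, hSadj, -⟩ := hH
  -- an edge of `H`
  obtain ⟨u0, v0, huv⟩ : ∃ u v, H.Adj u v := by
    have h2 : 1 < S.card := by omega
    obtain ⟨u, hu, v, hv, huv⟩ := Finset.one_lt_card.1 h2
    exact ⟨u, v, hSadj u hu v hv huv⟩
  refine ⟨max (max n0 t) (⌈(t : ℝ) ^ 2 / ε⌉₊ + 1), fun n hn G => ?_⟩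
  have hn1 : n0 ≤ n := (le_max_left _ _).trans ((le_max_left _ _).trans hn)
  have hn2 : t ≤ n := (le_max_right _ _).trans ((le_max_left _ _).trans hn)
  have hn3 : ⌈(t : ℝ) ^ 2 / ε⌉₊ + 1 ≤ n := (le_max_right _ _).trans hn
  have hn0 : 0 < n := by omega
  have hnr : (0 : ℝ) < n := by exact_mod_cast hn0
  have hn4 : (t : ℝ) ^ 2 / n ≤ ε := by
    rw [div_le_iff₀ hnr]
    have h1 : (t : ℝ) ^ 2 / ε ≤ n :=
      (Nat.le_ceil _).trans (by exact_mod_cast (by omega : ⌈(t : ℝ) ^ 2 / ε⌉₊ ≤ n))
    rw [div_le_iff₀ hε] at h1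
    linarith
  set W : Fin n → Fin n → ℝ := fun x y => if G.Adj x y then 1 else 0 with hW
  have hKW : Ker W := by
    refine ⟨fun x y => ?_, fun x y => ?_⟩
    · simp only [hW, G.adj_comm]
    · simp only [hW]
      by_cases h : G.Adj x y
      · right; rw [if_pos h]
      · left; rw [if_neg h]
  have hKC : Ker (co W) := by
    refine ⟨fun x y => ?_, fun x y => ?_⟩
    · unfold co; rw [hKW.symm]
    · unfold co
      rcases hKW.zo x y with h | h
      · right; rw [h]; ring
      · left; rw [h]; ring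
  have hA := hcount (Fin n) W hKW
  have hB := hcount (Fin n) (co W) hKC
  have hMM := hM (Fin n) W hKW (by rw [Fintype.card_fin]; exact hn1) T (by omega)
  rw [Fintype.card_fin] at hA hB
  set A := (Finset.univ : Finset (Fin t → Fin n)).filter
        (fun f => ∀ u v, H.Adj u v → W (f u) (f v) = 1) with hAdef
  set B := (Finset.univ : Finset (Fin t → Fin n)).filter
        (fun f => ∀ u v, H.Adj u v → co W (f u) (f v) = 1) with hBdef
  set E := ((Finset.univ : Finset (Fin t ↪ Fin n)).filter
          (fun f => (∀ u v, H.Adj u v → G.Adj (f u) (f v)) ∨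
            (∀ u v, H.Adj u v → Gᶜ.Adj (f u) (f v)))) with hEdef
  have hdisj : Disjoint A B := by
    rw [Finset.disjoint_left]
    intro f hf hf'
    have h1 := (mem_filter.1 hf).2 u0 v0 huv
    have h2 := (mem_filter.1 hf').2 u0 v0 huv
    unfold co at h2
    rw [h1] at h2
    norm_num at h2
  have hsub : (A ∪ B) ⊆ (E.image (fun f : Fin t ↪ Fin n => (f : Fin t → Fin n))) ∪
      (univ : Finset (Fin t → Fin n)).filter (fun f => ¬ Function.Injective f) := by
    intro f hf
    by_cases hinj : Function.Injective f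
    · refine mem_union_left _ ?_
      rw [mem_image]
      refine ⟨⟨f, hinj⟩, ?_, rfl⟩
      rw [hEdef, mem_filter]
      refine ⟨mem_univ _, ?_⟩
      rcases mem_union.1 hf with h | h
      · left
        intro u v huv
        have h1 := (mem_filter.1 h).2 u v huv
        by_contra hc
        have h2 : W (f u) (f v) = 0 := if_neg hc
        rw [h2] at h1
        norm_num at h1
      · right
        intro u v huv
        have h1 := (mem_filter.1 h).2 u v huv
        rw [SimpleGraph.compl_adj]
        refine ⟨fun h3 => huv.ne (hinj h3), ?_⟩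
        intro hc
        have h2 : W (f u) (f v) = 1 := if_pos hc
        unfold co at h1
        rw [h2] at h1
        norm_num at h1
    · exact mem_union_right _ (mem_filter.2 ⟨mem_univ _, hinj⟩)
  have hcard : A.card + B.card ≤ E.card + t ^ 2 * n ^ (t - 1) := by
    rw [← card_union_of_disjoint hdisj]
    refine (card_le_card hsub).trans ((card_union_le _ _).trans ?_)
    exact Nat.add_le_add card_image_le (card_noninj t n)
  have hcardr : (A.card : ℝ) + B.card ≤ E.card + (t : ℝ) ^ 2 * (n : ℝ) ^ (t - 1) := by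
    exact_mod_cast hcard
  have ht1 : 1 ≤ t := by omega
  have hpow : (n : ℝ) ^ t = (n : ℝ) ^ (t - 1) * n := by
    rw [← pow_succ]; congr 1; omega
  have hpt : (0 : ℝ) < (n : ℝ) ^ t := by positivity
  have hexp : tot T + (k - 1) = t - 1 := by omega
  rw [hexp] at hMM
  have hk1 : (0 : ℝ) < (k : ℝ) - 1 := by
    have : (4 : ℝ) ≤ k := by exact_mod_cast hk
    linarith
  have hmu : mu k ^ (t - 1) = ((k : ℝ) - 1) ^ ((1 : ℤ) - (t : ℤ)) := by
    unfold mu
    rw [one_div, inv_pow, ← zpow_natCast, ← zpow_neg]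
    congr 1
    omega
  rw [← hmu]
  have hE : (n : ℝ) ^ t * mu k ^ (t - 1) - (t : ℝ) ^ 2 * (n : ℝ) ^ (t - 1) ≤ E.card := by
    have h1 : (A.card : ℝ) + B.card = (lol W T + lol (co W) T) * (n : ℝ) ^ t := by
      rw [hA, hB]; ring
    have h2 : mu k ^ (t - 1) * (n : ℝ) ^ t ≤ (lol W T + lol (co W) T) * (n : ℝ) ^ t :=
      mul_le_mul_of_nonneg_right hMM hpt.le
    linarith
  have hdf : (0 : ℝ) < ((n.descFactorial t : ℕ) : ℝ) := by
    exact_mod_cast Nat.descFactorial_pos.2 hn2
  have hdf2 : ((n.descFactorial t : ℕ) : ℝ) ≤ (n : ℝ) ^ t := by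
    exact_mod_cast Nat.descFactorial_le_pow n t
  calc mu k ^ (t - 1) - ε ≤ mu k ^ (t - 1) - (t : ℝ) ^ 2 / n := by linarith
    _ = ((n : ℝ) ^ t * mu k ^ (t - 1) - (t : ℝ) ^ 2 * (n : ℝ) ^ (t - 1)) / (n : ℝ) ^ t := by
        rw [hpow]
        field_simp
    _ ≤ (E.card : ℝ) / (n : ℝ) ^ t := by gcongr
    _ ≤ (E.card : ℝ) / ((n.descFactorial t : ℕ) : ℝ) := by gcongr

end Pool.Agent.W672.LP
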